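import Pool.Agent.Zk72.Pen.Core

/-!
Residue classes read from a table at random places: the second moment.
-/

set_option autoImplicit false
set_option linter.unusedSectionVars false

namespace Pool.Agent.Zk11.RA

open Finset
open Pool.Agent.Zk72.Dil (window_le cl cl_modEq cl_card_ge On)
open Pool.Agent.Zk72.Pen (on_iff cov)

variable {I J : Type} [Fintype I] [DecidableEq I] [Fintype J]

/-- `n` is in the class of `r i` modulo `p`, and not equal to `r i` -/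
def E (r : I → ℤ) (n p : ℕ) (i : I) : Prop :=
  (n : ZMod p) = ((r i : ℤ) : ZMod p) ∧ (n : ℤ) ≠ r i

instance (r : I → ℤ) (n p : ℕ) (i : I) : Decidable (E r n p i) := by
  unfold E; infer_instance

/-- the indicator -/
def e (r : I → ℤ) (n p : ℕ) (i : I) : ℕ := if E r n p i then 1 else 0

theorem sum_e (Q : Finset ℕ) (r : I → ℤ) (n : ℕ) (i : I) :
    ∑ p ∈ Q, e r n p i = (Q.filter fun p => E r n p i).card := by
  unfold e
  rw [card_filter]

/-- few primes divide `n - r i ≠ 0` -/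
theorem few {Q : Finset ℕ} {x H : ℝ} (hx : 1 < x) (hQ : ∀ p ∈ Q, p.Prime ∧ x ≤ p)
    (r : I → ℤ) (n : ℕ) (i : I) (hH : 1 ≤ H) (hn : (n : ℝ) ≤ H) (hr : |(r i : ℝ)| ≤ H) :
    ((∑ p ∈ Q, e r n p i : ℕ) : ℝ) * Real.log x ≤ Real.log (2 * H) := by
  rw [sum_e]
  set A := Q.filter fun p => E r n p i with hA
  rcases A.eq_empty_or_nonempty with h | ⟨p0, hp0⟩
  · rw [h, card_empty, Nat.cast_zero, zero_mul]
    exact Real.log_nonneg (by linarith)
  · set m : ℤ := (n : ℤ) - r i with hm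
    have hm0 : m ≠ 0 := by
      have := (mem_filter.1 hp0).2.2
      intro h0
      apply this
      omega
    have h1 : ∏ p ∈ A, p ∣ m.natAbs := by
      refine Finset.prod_primes_dvd _ (fun p hp => ?_) fun p hp => ?_
      · exact (hQ p (mem_filter.1 hp).1).1.prime
      · have h2 := (mem_filter.1 hp).2.1
        have h3 : ((r i : ℤ) : ZMod p) = (((n : ℤ)) : ZMod p) := by
          rw [← h2]
          push_cast
          rfl
        rw [ZMod.intCast_eq_intCast_iff_dvd_sub] at h3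
        exact Int.natCast_dvd.1 h3
    have h2 : ∏ p ∈ A, p ≤ m.natAbs := Nat.le_of_dvd (Int.natAbs_pos.2 hm0) h1
    have h3 : x ^ A.card ≤ 2 * H := by
      calc x ^ A.card = ∏ _p ∈ A, x := by rw [prod_const]
        _ ≤ ∏ p ∈ A, (p : ℝ) := prod_le_prod (fun _ _ => by linarith) fun p hp =>
            (hQ p (mem_filter.1 hp).1).2
        _ = ((∏ p ∈ A, p : ℕ) : ℝ) := by push_cast; rfl
        _ ≤ (m.natAbs : ℝ) := by exact_mod_cast h2
        _ = |(m : ℝ)| := by rw [Nat.cast_natAbs, Int.cast_abs]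
        _ ≤ |(n : ℝ)| + |(r i : ℝ)| := by
            rw [hm]
            push_cast
            exact abs_sub _ _
        _ ≤ H + H := by
            rw [abs_of_nonneg (Nat.cast_nonneg n)]
            exact add_le_add hn hr
        _ = 2 * H := by ring
    rw [← Real.log_pow]
    exact Real.log_le_log (by positivity) h3

/-- the mean square for one `n` -/
theorem sq_n {Q : Finset ℕ} {r : I → ℤ} {π : J → ℕ → I} {D C : ℝ} (hD : 0 ≤ D)
    (h1 : ∀ p ∈ Q, ∀ i, (((univ : Finset J).filter fun j => π j p = i).card : ℝ) *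
      Fintype.card I ≤ D * Fintype.card J)
    (h2 : ∀ p ∈ Q, ∀ q ∈ Q, p ≠ q → ∀ i i', i ≠ i' →
      (((univ : Finset J).filter fun j => π j p = i ∧ π j q = i').card : ℝ) *
      (Fintype.card I : ℝ) ^ 2 ≤ D * Fintype.card J) (n : ℕ)
    (hCn : ∀ i, ((∑ p ∈ Q, e r n p i : ℕ) : ℝ) ≤ C) :
    (Fintype.card I : ℝ) ^ 2 * ((∑ j, (∑ p ∈ Q, e r n p (π j p)) ^ 2 : ℕ) : ℝ) ≤
      2 * D * Fintype.card J * Fintype.card I * C *
        ((∑ i, ∑ p ∈ Q, e r n p i : ℕ) : ℝ) := by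
  set cI : ℝ := (Fintype.card I : ℝ) with hcI
  set cJ : ℝ := (Fintype.card J : ℝ) with hcJ
  have hI0 : 0 ≤ cI := Nat.cast_nonneg _
  have hJ0 : 0 ≤ cJ := Nat.cast_nonneg _
  have hexp : ((∑ j, (∑ p ∈ Q, e r n p (π j p)) ^ 2 : ℕ) : ℝ) =
      ∑ p ∈ Q, ∑ q ∈ Q, ∑ i, ∑ i',
        (((univ : Finset J).filter fun j => π j p = i ∧ π j q = i').card : ℝ) *
          ((e r n p i : ℝ) * (e r n q i' : ℝ)) := by
    have h3 : ∀ j, ((∑ p ∈ Q, (e r n p (π j p) : ℝ))) ^ 2 =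
        ∑ p ∈ Q, ∑ q ∈ Q, ∑ i, ∑ i', (if π j p = i ∧ π j q = i' then (1 : ℝ) else 0) *
          ((e r n p i : ℝ) * (e r n q i' : ℝ)) := by
      intro j
      rw [sq, sum_mul_sum]
      refine sum_congr rfl fun p _ => sum_congr rfl fun q _ => ?_
      rw [sum_eq_single (π j p), sum_eq_single (π j q)]
      · simp
      · intro i' _ hi'
        rw [if_neg fun h => hi' h.2.symm, zero_mul]
      · intro h
        exact absurd (mem_univ _) h
      · intro i _ hi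
        refine sum_eq_zero fun i' _ => ?_
        rw [if_neg fun h => hi h.1.symm, zero_mul]
      · intro h
        exact absurd (mem_univ _) h
    push_cast
    rw [sum_congr rfl fun j _ => h3 j, sum_comm]
    refine sum_congr rfl fun p _ => ?_
    rw [sum_comm]
    refine sum_congr rfl fun q _ => ?_
    rw [sum_comm]
    refine sum_congr rfl fun i _ => ?_
    rw [sum_comm]
    refine sum_congr rfl fun i' _ => ?_
    rw [← sum_mul, sum_boole]
  have hb : ∀ p ∈ Q, ∀ q ∈ Q, ∀ i i' : I,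
      (((univ : Finset J).filter fun j => π j p = i ∧ π j q = i').card : ℝ) * cI ^ 2 ≤
        D * cJ + (if i = i' then D * cJ * cI else 0) := by
    intro p hp q hq i i'
    by_cases hi : i = i'
    · rw [if_pos hi]
      have h3 : (((univ : Finset J).filter fun j => π j p = i ∧ π j q = i').card : ℝ) ≤
          (((univ : Finset J).filter fun j => π j p = i).card : ℝ) := by
        refine Nat.cast_le.2 (card_le_card fun j hj => ?_)
        rw [mem_filter] at hj ⊢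
        exact ⟨hj.1, hj.2.1⟩
      calc _ ≤ (((univ : Finset J).filter fun j => π j p = i).card : ℝ) * cI ^ 2 := by gcongr
        _ = ((((univ : Finset J).filter fun j => π j p = i).card : ℝ) * cI) * cI := by ring
        _ ≤ (D * cJ) * cI := mul_le_mul_of_nonneg_right (h1 p hp i) hI0
        _ ≤ _ := by
          have : 0 ≤ D * cJ := by positivity
          linarith
    · rw [if_neg hi, add_zero]
      by_cases hpq : p = q
      · have h3 : ((univ : Finset J).filter fun j => π j p = i ∧ π j q = i') = ∅ := by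
          refine filter_eq_empty_iff.2 fun j _ h => hi ?_
          rw [← h.1, ← h.2, hpq]
        rw [h3, card_empty, Nat.cast_zero, zero_mul]
        positivity
      · exact h2 p hp q hq hpq i i' hi
  set T : ℝ := ∑ i, ∑ p ∈ Q, (e r n p i : ℝ) with hT
  have hT0 : 0 ≤ T := by positivity
  have hTC : T ≤ cI * C := by
    calc T ≤ ∑ _i : I, C := by
          refine sum_le_sum fun i _ => ?_
          have := hCn i
          push_cast at this
          exact this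
      _ = cI * C := by rw [sum_const, nsmul_eq_mul, card_univ]
  have hcast : ((∑ i, ∑ p ∈ Q, e r n p i : ℕ) : ℝ) = T := by
    rw [hT]
    push_cast
    rfl
  rw [hexp, hcast]
  have hS1 : ∑ p ∈ Q, ∑ q ∈ Q, ∑ i, ∑ i', D * cJ * ((e r n p i : ℝ) * (e r n q i' : ℝ)) =
      D * cJ * T ^ 2 := by
    have h3 : T = ∑ p ∈ Q, ∑ i, (e r n p i : ℝ) := by rw [hT, sum_comm]
    rw [sq, h3, sum_mul_sum, mul_sum]
    refine sum_congr rfl fun p _ => ?_
    rw [mul_sum]
    refine sum_congr rfl fun q _ => ?_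
    rw [sum_mul_sum, mul_sum]
    refine sum_congr rfl fun i _ => ?_
    rw [mul_sum]
  have hS2 : ∑ p ∈ Q, ∑ q ∈ Q, ∑ i, ∑ i', (if i = i' then D * cJ * cI else 0) *
      ((e r n p i : ℝ) * (e r n q i' : ℝ)) =
      D * cJ * cI * ∑ i, (∑ p ∈ Q, (e r n p i : ℝ)) ^ 2 := by
    have h3 : ∀ p q : ℕ, ∑ i, ∑ i', (if i = i' then D * cJ * cI else 0) *
        ((e r n p i : ℝ) * (e r n q i' : ℝ)) =
        ∑ i, D * cJ * cI * ((e r n p i : ℝ) * (e r n q i : ℝ)) := by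
      intro p q
      refine sum_congr rfl fun i _ => ?_
      rw [sum_eq_single i]
      · rw [if_pos rfl]
      · intro i' _ hi'
        rw [if_neg (Ne.symm hi'), zero_mul]
      · intro h
        exact absurd (mem_univ _) h
    simp_rw [h3]
    rw [mul_sum]
    have h4 : ∀ i, D * cJ * cI * (∑ p ∈ Q, (e r n p i : ℝ)) ^ 2 =
        ∑ p ∈ Q, ∑ q ∈ Q, D * cJ * cI * ((e r n p i : ℝ) * (e r n q i : ℝ)) := by
      intro i
      rw [sq, sum_mul_sum, mul_sum]
      exact sum_congr rfl fun p _ => mul_sum _ _ _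
    rw [sum_congr rfl fun i _ => h4 i]
    rw [sum_comm]
    conv_rhs => rw [sum_comm]
    rw [sum_comm]
    refine sum_congr rfl fun p _ => ?_
    rw [sum_comm]
  have hsq : ∑ i, (∑ p ∈ Q, (e r n p i : ℝ)) ^ 2 ≤ C * T := by
    rw [hT, mul_sum]
    refine sum_le_sum fun i _ => ?_
    rw [sq]
    refine mul_le_mul_of_nonneg_right ?_ (by positivity)
    have := hCn i
    push_cast at this
    exact this
  calc cI ^ 2 * ∑ p ∈ Q, ∑ q ∈ Q, ∑ i, ∑ i',
        (((univ : Finset J).filter fun j => π j p = i ∧ π j q = i').card : ℝ) *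
          ((e r n p i : ℝ) * (e r n q i' : ℝ)) =
      ∑ p ∈ Q, ∑ q ∈ Q, ∑ i, ∑ i',
        ((((univ : Finset J).filter fun j => π j p = i ∧ π j q = i').card : ℝ) * cI ^ 2) *
          ((e r n p i : ℝ) * (e r n q i' : ℝ)) := by
        simp_rw [mul_sum]
        refine sum_congr rfl fun p _ => sum_congr rfl fun q _ => sum_congr rfl fun i _ =>
          sum_congr rfl fun i' _ => ?_
        ring
    _ ≤ ∑ p ∈ Q, ∑ q ∈ Q, ∑ i, ∑ i', (D * cJ + (if i = i' then D * cJ * cI else 0)) *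
          ((e r n p i : ℝ) * (e r n q i' : ℝ)) := by
        refine sum_le_sum fun p hp => sum_le_sum fun q hq => sum_le_sum fun i _ =>
          sum_le_sum fun i' _ => ?_
        exact mul_le_mul_of_nonneg_right (hb p hp q hq i i') (by positivity)
    _ = D * cJ * T ^ 2 + D * cJ * cI * ∑ i, (∑ p ∈ Q, (e r n p i : ℝ)) ^ 2 := by
        rw [← hS1, ← hS2]
        simp_rw [← sum_add_distrib]
        refine sum_congr rfl fun p _ => sum_congr rfl fun q _ => sum_congr rfl fun i _ =>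
          sum_congr rfl fun i' _ => ?_
        ring
    _ ≤ D * cJ * ((cI * C) * T) + D * cJ * cI * (C * T) := by
        refine add_le_add (mul_le_mul_of_nonneg_left ?_ (by positivity))
          (mul_le_mul_of_nonneg_left hsq (by positivity))
        rw [sq]
        exact mul_le_mul_of_nonneg_right hTC hT0
    _ = _ := by ring

theorem e_sum_n (r : I → ℤ) (N p : ℕ) (i : I) :
    ∑ n ∈ Ioc 0 (0 + N), e r n p i = ((Ioc 0 (0 + N)).filter fun n => E r n p i).card := by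
  unfold e
  rw [card_filter]

/-- upper bound for the number of the `n` in a class -/
theorem e_sum_le {r : I → ℤ} {N p : ℕ} {x : ℝ} (hx : 0 < x) (hp : x ≤ p) (i : I) :
    ((∑ n ∈ Ioc 0 (0 + N), e r n p i : ℕ) : ℝ) ≤ N / x + 1 := by
  rw [e_sum_n]
  have h1 := window_le (u := 0) (N := N) (r := p)
    (A := (Ioc 0 (0 + N)).filter fun n => E r n p i) (filter_subset _ _) (by
      intro n hn n' hn'
      have h1 := (mem_filter.1 hn).2.1
      have h2 := (mem_filter.1 hn').2.1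
      rw [← ZMod.natCast_eq_natCast_iff, h1, h2])
  have : (N : ℝ) / p ≤ N / x := div_le_div_of_nonneg_left (Nat.cast_nonneg _) hx hp
  linarith

/-- lower bound for the number of the `n` in a class -/
theorem e_sum_ge {r : I → ℤ} {N p : ℕ} (hp : p.Prime) (i : I) :
    (N : ℝ) / p - 2 ≤ ((∑ n ∈ Ioc 0 (0 + N), e r n p i : ℕ) : ℝ) := by
  rw [e_sum_n]
  have h1 := cl_card_ge (a := fun p => ((r i : ℤ) : ZMod p)) (u := 0) (N := N) (s := 1) (t := 1)
    hp (Nat.Prime.not_dvd_one hp)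
  set A := cl (fun p => ((r i : ℤ) : ZMod p)) 0 N 1 1 p with hA
  have h2 : A.erase (r i).toNat ⊆ (Ioc 0 (0 + N)).filter fun n => E r n p i := by
    intro n hn
    obtain ⟨hn1, hn2⟩ := mem_erase.1 hn
    rw [hA, cl, mem_filter, on_iff] at hn2
    refine mem_filter.2 ⟨hn2.1, hn2.2, fun h => hn1 ?_⟩
    omega
  have h3 : A.card - 1 ≤ ((Ioc 0 (0 + N)).filter fun n => E r n p i).card :=
    (pred_card_le_card_erase).trans (card_le_card h2)
  have h4 : (A.card : ℝ) ≤ ((((Ioc 0 (0 + N)).filter fun n => E r n p i).card : ℕ) : ℝ) + 1 := by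
    exact_mod_cast (by omega : A.card ≤ ((Ioc 0 (0 + N)).filter fun n => E r n p i).card + 1)
  linarith

/-- the first moment -/
theorem first {Q : Finset ℕ} {r : I → ℤ} {N : ℕ} {x : ℝ} (hx : 0 < x)
    (hQ : ∀ p ∈ Q, p.Prime ∧ x ≤ p ∧ (p : ℝ) ≤ 2 * x) (hN : 8 * x ≤ N) (π : ℕ → I) :
    (Q.card : ℝ) * (N / (4 * x)) ≤
      ((∑ n ∈ Ioc 0 (0 + N), ∑ p ∈ Q, e r n p (π p) : ℕ) : ℝ) := by
  rw [sum_comm]
  rw [Nat.cast_sum, ← nsmul_eq_mul]
  refine card_nsmul_le_sum Q _ _ fun p hp => ?_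
  obtain ⟨hpp, hp1, hp2⟩ := hQ p hp
  have h1 := e_sum_ge (r := r) (N := N) hpp (π p)
  have hp0 : (0 : ℝ) < p := by exact_mod_cast hpp.pos
  have h5 : (N : ℝ) / (2 * x) ≤ N / p :=
    div_le_div_of_nonneg_left (Nat.cast_nonneg _) hp0 hp2
  have h6 : 2 ≤ (N : ℝ) / (4 * x) := by
    rw [le_div_iff₀ (by positivity)]
    linarith
  have e1 : (N : ℝ) / (2 * x) = 2 * (N / (4 * x)) := by field_simp; ring
  linarith

/-- the number of bad maps -/
theorem bad [Nonempty I] {Q : Finset ℕ} {r : I → ℤ} {π : J → ℕ → I} {N : ℕ} {x Y D C : ℝ}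
    (hx : 0 < x) (hQ : ∀ p ∈ Q, p.Prime ∧ x ≤ p ∧ (p : ℝ) ≤ 2 * x) (hN : 8 * x ≤ N)
    (hD : 0 ≤ D) (hC : 0 ≤ C)
    (h1 : ∀ p ∈ Q, ∀ i, (((univ : Finset J).filter fun j => π j p = i).card : ℝ) *
      Fintype.card I ≤ D * Fintype.card J)
    (h2 : ∀ p ∈ Q, ∀ q ∈ Q, p ≠ q → ∀ i i', i ≠ i' →
      (((univ : Finset J).filter fun j => π j p = i ∧ π j q = i').card : ℝ) *
      (Fintype.card I : ℝ) ^ 2 ≤ D * Fintype.card J)
    (hCn : ∀ n ∈ Ioc 0 (0 + N), ∀ i, ((∑ p ∈ Q, e r n p i : ℕ) : ℝ) ≤ C)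
    {B : Finset J} (hY0 : 0 ≤ Y)
    (hY : ∀ j ∈ B, ((cov Q (fun p => ((r (π j p) : ℤ) : ZMod p)) N).card : ℝ) ≤ Y) :
    (B.card : ℝ) * (Q.card * (N / (4 * x))) ^ 2 ≤
      Y * (2 * D * Fintype.card J * C * (Q.card * (N / x + 1))) := by
  have hI0 : (0 : ℝ) < Fintype.card I := by exact_mod_cast Fintype.card_pos
  have hkey : ∀ j ∈ B, (Q.card * (N / (4 * x))) ^ 2 ≤
      Y * ((∑ n ∈ Ioc 0 (0 + N), (∑ p ∈ Q, e r n p (π j p)) ^ 2 : ℕ) : ℝ) := by
    intro j hj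
    have h3 := first (r := r) hx hQ hN (π j)
    set c : (p : ℕ) → ZMod p := fun p => ((r (π j p) : ℤ) : ZMod p) with hc
    set F : ℕ → ℝ := fun n => ((∑ p ∈ Q, e r n p (π j p) : ℕ) : ℝ) with hF
    have h4 : ((∑ n ∈ Ioc 0 (0 + N), ∑ p ∈ Q, e r n p (π j p) : ℕ) : ℝ) =
        ∑ n ∈ cov Q c N, F n := by
      rw [Nat.cast_sum, cov, sum_filter]
      refine sum_congr rfl fun n _ => ?_
      split_ifs with h
      · rfl
      · rw [Nat.cast_eq_zero, sum_eq_zero_iff]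
        intro p hp
        unfold e
        rw [if_neg]
        exact fun ho => h ⟨p, hp, ho.1⟩
    have h5 : (∑ n ∈ cov Q c N, F n) ^ 2 ≤
        ((cov Q c N).card : ℝ) * ∑ n ∈ cov Q c N, F n ^ 2 :=
      sq_sum_le_card_mul_sum_sq
    have h6 : ∑ n ∈ cov Q c N, F n ^ 2 ≤
        ((∑ n ∈ Ioc 0 (0 + N), (∑ p ∈ Q, e r n p (π j p)) ^ 2 : ℕ) : ℝ) := by
      rw [Nat.cast_sum]
      refine (sum_le_sum_of_subset_of_nonneg (filter_subset _ _) fun _ _ _ =>
        sq_nonneg _).trans (le_of_eq ?_)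
      refine sum_congr rfl fun n _ => ?_
      rw [hF, Nat.cast_pow]
    have h0 : (0 : ℝ) ≤ Q.card * (N / (4 * x)) := by positivity
    calc ((Q.card : ℝ) * (N / (4 * x))) ^ 2
        ≤ ((∑ n ∈ Ioc 0 (0 + N), ∑ p ∈ Q, e r n p (π j p) : ℕ) : ℝ) ^ 2 :=
          pow_le_pow_left₀ h0 h3 2
      _ = (∑ n ∈ cov Q c N, F n) ^ 2 := by rw [h4]
      _ ≤ _ := h5
      _ ≤ Y * ((∑ n ∈ Ioc 0 (0 + N), (∑ p ∈ Q, e r n p (π j p)) ^ 2 : ℕ) : ℝ) := by
        have hs0 : 0 ≤ ∑ n ∈ cov Q c N, F n ^ 2 := sum_nonneg fun _ _ => sq_nonneg _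
        exact mul_le_mul (hY j hj) h6 hs0 hY0
  have h6 : (B.card : ℝ) * (Q.card * (N / (4 * x))) ^ 2 ≤
      ∑ j ∈ B, Y * ((∑ n ∈ Ioc 0 (0 + N), (∑ p ∈ Q, e r n p (π j p)) ^ 2 : ℕ) : ℝ) := by
    rw [← nsmul_eq_mul]
    exact card_nsmul_le_sum _ _ _ hkey
  refine h6.trans ?_
  rw [← mul_sum]
  refine mul_le_mul_of_nonneg_left ?_ hY0
  have h7 : ∑ j ∈ B, ∑ n ∈ Ioc 0 (0 + N), (∑ p ∈ Q, e r n p (π j p)) ^ 2 ≤
      ∑ n ∈ Ioc 0 (0 + N), ∑ j, (∑ p ∈ Q, e r n p (π j p)) ^ 2 := by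
    rw [sum_comm]
    exact sum_le_sum fun n _ => sum_le_sum_of_subset (subset_univ B)
  have h8 : ((∑ j ∈ B, ∑ n ∈ Ioc 0 (0 + N), (∑ p ∈ Q, e r n p (π j p)) ^ 2 : ℕ) : ℝ) ≤
      ((∑ n ∈ Ioc 0 (0 + N), ∑ j, (∑ p ∈ Q, e r n p (π j p)) ^ 2 : ℕ) : ℝ) := by
    exact_mod_cast h7
  rw [Nat.cast_sum] at h8
  refine h8.trans ?_
  have h9 : (Fintype.card I : ℝ) ^ 2 *
      ((∑ n ∈ Ioc 0 (0 + N), ∑ j, (∑ p ∈ Q, e r n p (π j p)) ^ 2 : ℕ) : ℝ) ≤
      2 * D * Fintype.card J * Fintype.card I * C *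
        ((∑ n ∈ Ioc 0 (0 + N), ∑ i, ∑ p ∈ Q, e r n p i : ℕ) : ℝ) := by
    rw [Nat.cast_sum, Nat.cast_sum, mul_sum, mul_sum]
    refine sum_le_sum fun n hn => ?_
    exact sq_n (r := r) (π := π) hD h1 h2 n (hCn n hn)
  have h10 : ((∑ n ∈ Ioc 0 (0 + N), ∑ i, ∑ p ∈ Q, e r n p i : ℕ) : ℝ) ≤
      Fintype.card I * (Q.card * (N / x + 1)) := by
    have h11 : ∑ n ∈ Ioc 0 (0 + N), ∑ i, ∑ p ∈ Q, e r n p i =
        ∑ i, ∑ p ∈ Q, ∑ n ∈ Ioc 0 (0 + N), e r n p i := by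
      rw [sum_comm]
      exact sum_congr rfl fun i _ => sum_comm
    rw [h11, Nat.cast_sum]
    calc ∑ i : I, ((∑ p ∈ Q, ∑ n ∈ Ioc 0 (0 + N), e r n p i : ℕ) : ℝ) ≤
        ∑ _i : I, (Q.card * (N / x + 1) : ℝ) := by
          refine sum_le_sum fun i _ => ?_
          rw [Nat.cast_sum]
          calc ∑ p ∈ Q, ((∑ n ∈ Ioc 0 (0 + N), e r n p i : ℕ) : ℝ) ≤
              ∑ _p ∈ Q, ((N : ℝ) / x + 1) :=
                sum_le_sum fun p hp => e_sum_le hx (hQ p hp).2.1 i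
            _ = _ := by rw [sum_const, nsmul_eq_mul]
      _ = _ := by rw [sum_const, nsmul_eq_mul, card_univ]
  have h12 : (Fintype.card I : ℝ) ^ 2 *
      ((∑ n ∈ Ioc 0 (0 + N), ∑ j, (∑ p ∈ Q, e r n p (π j p)) ^ 2 : ℕ) : ℝ) ≤
      (Fintype.card I : ℝ) ^ 2 * (2 * D * Fintype.card J * C * (Q.card * (N / x + 1))) := by
    refine h9.trans ?_
    calc 2 * D * Fintype.card J * Fintype.card I * C *
        ((∑ n ∈ Ioc 0 (0 + N), ∑ i, ∑ p ∈ Q, e r n p i : ℕ) : ℝ) ≤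
        2 * D * Fintype.card J * Fintype.card I * C *
          (Fintype.card I * (Q.card * (N / x + 1))) :=
          mul_le_mul_of_nonneg_left h10 (by positivity)
      _ = _ := by ring
  exact le_of_mul_le_mul_left h12 (by positivity)

end Pool.Agent.Zk11.RA
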