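import Pool.Agent.Zk11.RA.Core
import Pool.Agent.Zk72.Pen.Final

/-!
Residue classes read from a table at random places: asymptotic form.
-/

set_option autoImplicit false
set_option linter.unusedSectionVars false

namespace Pool.Agent.Zk11.RA

open Finset Filter Topology
open Pool.Agent.H170R2.PC
open Pool.Agent.Zk72.Pen (cov PD_props)

/-- the integers of `[1, N]` in the class `a p` modulo `p` for some `p` in `Q` -/
def covered (N : ℕ) (Q : Finset ℕ) (a : (p : ℕ) → ZMod p) : Finset ℕ :=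
  (Icc 1 N).filter fun n => ∃ p ∈ Q, (n : ZMod p) = a p

/-- every set `Q` of primes of the range covers at least `θ (|Q| / |P|) ^ 2 N` integers -/
def Spread (α : ℝ) (N : ℕ) (θ : ℝ) (a : (p : ℕ) → ZMod p) : Prop :=
  ∀ Q : Finset ℕ, (∀ p ∈ Q, InRange α N p) →
    θ * ((Q.card : ℝ) / (Set.ncard {p : ℕ | InRange α N p} : ℝ)) ^ 2 * N ≤
      ((covered N Q a).card : ℝ)

variable {I J : Type} [Fintype I] [DecidableEq I] [Fintype J]

/-- the maps `π j` are balanced and pairwise independent up to the factor `D` -/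
def Balanced (α : ℝ) (N : ℕ) (π : J → ℕ → I) (D : ℝ) : Prop :=
  (∀ p, InRange α N p → ∀ i, (((univ : Finset J).filter fun j => π j p = i).card : ℝ) *
    Fintype.card I ≤ D * Fintype.card J) ∧
  ∀ p, InRange α N p → ∀ q, InRange α N q → p ≠ q → ∀ i i', i ≠ i' →
    (((univ : Finset J).filter fun j => π j p = i ∧ π j q = i').card : ℝ) *
      (Fintype.card I : ℝ) ^ 2 ≤ D * Fintype.card J

/-- the choice read from the table `r` -/
def choice (r : I → ℤ) (π : ℕ → I) : (p : ℕ) → ZMod p := fun p => ((r (π p) : ℤ) : ZMod p)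

theorem covered_eq (N : ℕ) (Q : Finset ℕ) (a : (p : ℕ) → ZMod p) : covered N Q a = cov Q a N := by
  unfold covered cov
  congr 1
  ext n
  rw [mem_Icc, mem_Ioc]
  omega

/-- the sum of the squares -/
def SS (N : ℕ) (Q : Finset ℕ) (r : I → ℤ) (π : ℕ → I) : ℕ :=
  ∑ n ∈ Ioc 0 (0 + N), (∑ p ∈ Q, e r n p (π p)) ^ 2

/-- every subset covers many integers if the sum of the squares is small -/
theorem spread_of {Q P : Finset ℕ} (hQP : Q ⊆ P) {r : I → ℤ} {π : ℕ → I} {N : ℕ} {x : ℝ}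
    (hx : 0 < x) (hP : ∀ p ∈ P, p.Prime ∧ x ≤ p ∧ (p : ℝ) ≤ 2 * x) (hN : 8 * x ≤ N) :
    (Q.card * (N / (4 * x))) ^ 2 ≤
      ((cov Q (choice r π) N).card : ℝ) * (SS N P r π : ℝ) := by
  have h3 := first (r := r) hx (fun p hp => hP p (hQP hp)) hN π
  set c : (p : ℕ) → ZMod p := choice r π with hc
  set F : ℕ → ℝ := fun n => ((∑ p ∈ Q, e r n p (π p) : ℕ) : ℝ) with hF
  have h4 : ((∑ n ∈ Ioc 0 (0 + N), ∑ p ∈ Q, e r n p (π p) : ℕ) : ℝ) =
      ∑ n ∈ cov Q c N, F n := by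
    rw [Nat.cast_sum, cov, sum_filter]
    refine sum_congr rfl fun n _ => ?_
    split_ifs with h
    · rfl
    · rw [Nat.cast_eq_zero, sum_eq_zero_iff]
      intro p hp
      unfold e
      rw [if_neg]
      exact fun ho => h ⟨p, hp, ho.1⟩
  have h5 : (∑ n ∈ cov Q c N, F n) ^ 2 ≤
      ((cov Q c N).card : ℝ) * ∑ n ∈ cov Q c N, F n ^ 2 :=
    sq_sum_le_card_mul_sum_sq
  have h6 : ∑ n ∈ cov Q c N, F n ^ 2 ≤ (SS N P r π : ℝ) := by
    unfold SS
    rw [Nat.cast_sum]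
    refine (sum_le_sum_of_subset_of_nonneg (filter_subset _ _) fun _ _ _ =>
      sq_nonneg _).trans ?_
    refine sum_le_sum fun n _ => ?_
    rw [hF, Nat.cast_pow]
    refine pow_le_pow_left₀ (Nat.cast_nonneg _) ?_ 2
    exact Nat.cast_le.2 (sum_le_sum_of_subset hQP)
  have h0 : (0 : ℝ) ≤ Q.card * (N / (4 * x)) := by positivity
  calc ((Q.card : ℝ) * (N / (4 * x))) ^ 2
      ≤ ((∑ n ∈ Ioc 0 (0 + N), ∑ p ∈ Q, e r n p (π p) : ℕ) : ℝ) ^ 2 :=
        pow_le_pow_left₀ h0 h3 2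
    _ = (∑ n ∈ cov Q c N, F n) ^ 2 := by rw [h4]
    _ ≤ _ := h5
    _ ≤ _ := mul_le_mul_of_nonneg_left h6 (Nat.cast_nonneg _)

end Pool.Agent.Zk11.RA
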